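import Pool.Agent.Helper18.SU.Goals

set_option autoImplicit false

namespace Pool.Agent.Helper8.SU

open Pool.Agent.Helper18.SU

theorem COL : COL_stmt := by
  intro W _ _ r par dep hroot K hrK hK lev sgn
  classical
  let C : ℕ → W → Bool := fun n => Nat.rec sgn
    (fun _ f v => if v ∉ K ∧ lev v = lev (par v) then f (par v) else sgn v) n
  refine ⟨fun v => C (dep v) v, ?_⟩
  intro v hv
  have hvr : v ≠ r := by rintro rfl; exact hv hrK
  have hd : dep v = dep (par v) + 1 := (hroot.2.2 v hvr).symm
  have hC : C (dep v) v =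
      if v ∉ K ∧ lev v = lev (par v) then C (dep (par v)) (par v) else sgn v := by
    rw [hd]
  constructor
  · intro h
    show C (dep v) v = sgn v
    rw [hC, if_neg (fun h' => h h'.2)]
  · intro h
    show C (dep v) v = C (dep (par v)) (par v)
    rw [hC, if_pos ⟨hv, h⟩]

theorem CHA : CHA_stmt := by
  intro W _ _ r par dep hroot K hrK hK lev hlev t ht
  classical
  let Good : ℕ → (ℕ → W) → Prop := fun b c => 1 ≤ b ∧ c 0 = t ∧
    (∀ i, i + 1 < b → par (c (i + 1)) = c i) ∧ (∀ i < b, lev (c i) = lev t ∧ c i ∉ K)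
  have hdep : ∀ b c, Good b c → ∀ i < b, dep (c i) = dep t + i := by
    intro b c hg i
    induction i with
    | zero => intro _; rw [hg.2.1]; rfl
    | succ i ih =>
      intro hi
      have h1 := ih (by omega)
      have h2 := hg.2.2.1 i hi
      have h3 : c (i + 1) ≠ r := by
        intro h
        exact (hg.2.2.2 (i + 1) hi).2 (h ▸ hrK)
      have h4 := hroot.2.2 _ h3
      rw [h2] at h4
      omega
  have hinj : ∀ b c, Good b c → ∀ i < b, ∀ j < b, c i = c j → i = j := by
    intro b c hg i hi j hj h
    have h1 := hdep b c hg i hi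
    have h2 := hdep b c hg j hj
    rw [h] at h1
    omega
  have hbd : ∀ b c, Good b c → b ≤ Fintype.card W := by
    intro b c hg
    have : Function.Injective (fun i : Fin b => c i) := by
      intro i j h
      exact Fin.ext (hinj b c hg i i.2 j j.2 h)
    simpa using Fintype.card_le_of_injective _ this
  have hex : Good 1 (fun _ => t) := ⟨le_rfl, rfl, fun i hi => by omega, fun i hi => ⟨rfl, ht⟩⟩
  have hb : ∃ c, Good (Nat.findGreatest (fun b => ∃ c, Good b c) (Fintype.card W)) c :=
    Nat.findGreatest_spec (P := fun b => ∃ c, Good b c) (hbd 1 (fun _ => t) hex) ⟨fun _ => t, hex⟩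
  have hmax : ∀ b c, Good b c → b ≤ Nat.findGreatest (fun b => ∃ c, Good b c) (Fintype.card W) :=
    fun b c hg => Nat.le_findGreatest (P := fun b => ∃ c, Good b c) (hbd b c hg) ⟨c, hg⟩
  generalize Nat.findGreatest (fun b => ∃ c, Good b c) (Fintype.card W) = b at hb hmax
  obtain ⟨c, hc⟩ := hb
  refine ⟨b, c, hc.1, hc.2.1, hc.2.2.1, hc.2.2.2, hinj b c hc, ?_⟩
  intro i hi v hv hpv hlv
  by_cases h : i + 1 < b
  · refine ⟨i + 1, h, ?_⟩
    have hp := hc.2.2.1 i h
    have hl1 := hc.2.2.2 (i + 1) h
    have hl0 := hc.2.2.2 i hi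
    refine hlev.2.2 v (c (i + 1)) hv hl1.2 (by rw [hpv, hp]) ?_ ?_
    · rw [hpv, hlv, hl0.1]
    · rw [hp, hl1.1, hl0.1]
  · exfalso
    have hbi : b = i + 1 := by omega
    subst hbi
    have hg' : Good (i + 1 + 1) (fun j => if j < i + 1 then c j else v) := by
      refine ⟨by omega, ?_, ?_, ?_⟩
      · show (if 0 < i + 1 then c 0 else v) = t
        rw [if_pos (by omega)]; exact hc.2.1
      · intro j hj
        show par (if j + 1 < i + 1 then c (j + 1) else v) = if j < i + 1 then c j else v
        by_cases hj' : j + 1 < i + 1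
        · rw [if_pos hj', if_pos (by omega)]; exact hc.2.2.1 j hj'
        · rw [if_neg hj', if_pos (by omega)]
          have : j = i := by omega
          rw [this]; exact hpv
      · intro j hj
        show lev (if j < i + 1 then c j else v) = lev t ∧ (if j < i + 1 then c j else v) ∉ K
        by_cases hj' : j < i + 1
        · rw [if_pos hj']; exact hc.2.2.2 j hj'
        · rw [if_neg hj']; exact ⟨hlv, hv⟩
    have := hmax (i + 1 + 1) (fun j => if j < i + 1 then c j else v) hg'
    omega

end Pool.Agent.Helper8.SU
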