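import Pool.Agent.Helper18.SU.Goals

set_option autoImplicit false

namespace Pool.Agent.Helper8.SU

open Pool.Agent.Helper18.SU

theorem FTR.erf_nonneg (n s : ℕ) (hn : 1 ≤ n) : 0 ≤ erf n s := by
  unfold erf
  have h : 0 ≤ Real.log n := Real.log_nonneg (by exact_mod_cast hn)
  positivity

theorem FTR (h1 : TRA_stmt) (h2 : ROOT_stmt) (h3 : NUM_stmt) : FTR_stmt := by
  intro n D hD htree K hK hconn F hF3 hcore N hN T hTa hTt
  classical
  obtain ⟨r, hr⟩ := hK
  have hn : 1 ≤ n := by
    have := r.2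
    omega
  have hF : 1 ≤ F := by
    by_contra hF
    have hF0 : F = 0 := by omega
    subst hF0
    obtain ⟨f, -, -⟩ := hcore ⟨fun _ _ => True⟩ (fun u => u.elim0) (fun u => u.elim0)
    exact (f r).elim0
  have hNF : F ≤ N := by
    have h4 := FTR.erf_nonneg n (n - K.card) hn
    have h5 : (F : ℝ) ≤ N := by
      have : (0 : ℝ) ≤ ((n - K.card : ℕ) : ℝ) := Nat.cast_nonneg _
      linarith
    exact_mod_cast h5
  by_cases hn1 : n = 1
  · subst hn1
    refine ⟨fun _ => ⟨0, by omega⟩, ?_, ?_⟩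
    · intro a b _
      exact Subsingleton.elim a b
    · intro a b hab
      have : a = b := Subsingleton.elim a b
      subst this
      exact absurd hab (hD _ _ hab)
  have hn2 : 2 ≤ n := by omega
  have hKn : K.card ≤ n := by simpa using K.card_le_univ
  have hK1 : 1 ≤ K.card := Finset.card_pos.2 ⟨r, hr⟩
  obtain ⟨par, dep, hroot, hadj, hclosed, -⟩ := h2 (Fin n) (SimpleGraph.fromRel D.Adj) htree r
  have hcl := hclosed K hr hconn
  obtain ⟨R, L, hL, hsR, hb1, hb2⟩ := h3 n (n - K.card) F hn2 (by omega) hF3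
  set s := n - K.card with hs
  have herf := FTR.erf_nonneg n s hn
  let sgn : Fin n → Bool := fun v => decide (D.Adj (par v) v)
  have hG : ∀ a b, D.Adj a b → (SimpleGraph.fromRel D.Adj).Adj a b := by
    intro a b hab
    rw [SimpleGraph.fromRel_adj]
    refine ⟨?_, Or.inl hab⟩
    rintro rfl
    exact hD _ _ hab hab
  have hcore' : ∀ X : Finset (Fin N), F ≤ X.card → ∃ f : Fin n → Fin N,
      Emb T.Adj r par sgn K X f := by
    intro X hX
    obtain ⟨X', hX', hc⟩ := Finset.exists_subset_card_eq hX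
    let e : Fin F ≃ X' := (X'.equivFinOfCardEq hc).symm
    obtain ⟨f, hfi, hfa⟩ := hcore ⟨fun i j => T.Adj (e i : Fin N) (e j : Fin N)⟩
      (fun u v h => hTa _ _ h)
      (fun u v h => hTt _ _ (fun h' => h (e.injective (Subtype.ext h'))))
    refine ⟨fun v => (e (f v) : Fin N), ?_, ?_, ?_⟩
    · intro v _
      exact hX' (e (f v)).2
    · intro u hu v hv h
      exact hfi u hu v hv (e.injective (Subtype.ext h))
    · intro v hv hvr hpv
      have h4 : (SimpleGraph.fromRel D.Adj).Adj v (par v) := (hadj v (par v)).2 (Or.inl ⟨hvr, rfl⟩)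
      rw [SimpleGraph.fromRel_adj] at h4
      rcases h4.2 with h5 | h5
      · have h6 : sgn v = false := decide_eq_false (hD _ _ h5)
        rw [h6]
        exact hfa v hv (par v) hpv h5
      · have h6 : sgn v = true := decide_eq_true h5
        rw [h6]
        exact hfa (par v) hpv v hv h5
  obtain ⟨X, -, hXc⟩ : ∃ X ⊆ (Finset.univ : Finset (Fin N)),
      X.card = ⌈(F : ℝ) + 2 * s + erf n s⌉₊ := by
    apply Finset.exists_subset_card_eq
    rw [Finset.card_univ, Fintype.card_fin]
    exact Nat.ceil_le.2 hN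
  have hpos : (0 : ℝ) ≤ (F : ℝ) + 2 * s + erf n s := by positivity
  have hX1 : (X.card : ℝ) ≤ (F : ℝ) + 2 * s + erf n s + 1 := by
    rw [hXc]
    exact (Nat.ceil_lt_add_one hpos).le
  have hX2 : (F : ℝ) + 2 * s + erf n s ≤ X.card := by
    rw [hXc]
    exact Nat.le_ceil _
  obtain ⟨f, -, hfi, hfa⟩ := h1 (Fin n) (Fin N) T.Adj ⟨hTa, hTt⟩ r par dep hroot K hr hcl sgn F
    hcore' s R L hL (by rw [Fintype.card_fin]; omega) hsR X (by linarith) (by linarith)
  refine ⟨f, fun a b h => hfi a (Finset.mem_univ _) b (Finset.mem_univ _) h, ?_⟩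
  intro a b hab
  rcases (hadj a b).1 (hG a b hab) with ⟨h4, h5⟩ | ⟨h4, h5⟩
  · have h6 : sgn a = false := by
      apply decide_eq_false
      rw [h5]
      exact hD _ _ hab
    have h7 := hfa a (Finset.mem_univ _) h4 (Finset.mem_univ _)
    rw [h6, h5] at h7
    exact h7
  · have h6 : sgn b = true := by
      apply decide_eq_true
      rw [h5]
      exact hab
    have h7 := hfa b (Finset.mem_univ _) h4 (Finset.mem_univ _)
    rw [h6, h5] at h7
    exact h7

end Pool.Agent.Helper8.SU
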